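import Pool.Agent.Helper20.EX3.Statements

/-!
# MP_2857a5_co : module DIII (for helper20)

Trees with few sinks and few sources in the third regime.
-/

set_option autoImplicit false

open Finset
open scoped Classical

namespace OT

noncomputable section

/-- The filling of a special window. -/
def diiiSp (k₁ k₂ : Bool × Bool) (i : ℕ) : Bool × Bool :=
  if i = 8 then (true, k₁.1) else if i = 9 then k₁ else if i = 11 then k₂
  else if i = 12 then (k₂.2, true) else (true, true)

/-- The number of positions of a special window with a given label. -/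
def diiiS (k k₁ k₂ : Bool × Bool) : ℕ :=
  (if (true, k₁.1) = k then 1 else 0) + (if k₁ = k then 1 else 0) + (if k₂ = k then 1 else 0)
    + (if (k₂.2, true) = k then 1 else 0)

theorem diiiS_le (k k₁ k₂ : Bool × Bool) : diiiS k k₁ k₂ ≤ 4 := by
  unfold diiiS
  split_ifs <;> omega

theorem diiiS_bal (k₁ k₂ : Bool × Bool) :
    diiiS (true, false) k₁ k₂ + (if k₁.2 = true ∧ k₂.1 = false then 1 else 0) =
      diiiS (false, true) k₁ k₂ + (if k₁.2 = false ∧ k₂.1 = true then 1 else 0) := by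
  obtain ⟨a, b⟩ := k₁
  obtain ⟨c, d⟩ := k₂
  cases a <;> cases b <;> cases c <;> cases d <;> simp [diiiS]

theorem diii_card_prod {A B : Type} [Fintype A] [Fintype B] (P : A → B → Prop)
    (i : DecidablePred fun q : A × B => P q.1 q.2) :
    (@Finset.filter _ (fun q : A × B => P q.1 q.2) i univ).card =
      ∑ a, (univ.filter fun b => P a b).card := by
  simp only [Finset.card_filter, Fintype.sum_prod_type]
  refine Finset.sum_congr rfl fun a _ => Finset.sum_congr rfl fun b _ => ?_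
  by_cases h : P a b
  · rw [if_pos h, if_pos h]
  · rw [if_neg h, if_neg h]

/-- The vertices outside `C` are partitioned by the classes. -/
theorem diii_tot {V : Type} [Fintype V] (W' : Bool × Bool → Finset V)
    (hdisj : ∀ k l, k ≠ l → Disjoint (W' k) (W' l)) (C : Finset V)
    (hall : ∀ v, Exc W' v → v ∈ C) :
    ∑ k, (W' k \ C).card = Fintype.card V - C.card := by
  rw [← Finset.card_biUnion fun k _ l _ hkl =>
    (hdisj k l hkl).mono Finset.sdiff_subset Finset.sdiff_subset]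
  have : (univ.biUnion fun k => W' k \ C) = Cᶜ := by
    ext v
    simp only [Finset.mem_biUnion, Finset.mem_univ, true_and, Finset.mem_sdiff,
      Finset.mem_compl]
    constructor
    · rintro ⟨k, -, h⟩
      exact h
    · intro h
      by_contra hcon
      push Not at hcon
      exact h (hall v fun k hk => h (hcon k hk))
  rw [this, Finset.card_compl]

theorem diii_count_sp (ℓ : ℕ) (hℓ : 20 ≤ ℓ) (k k₁ k₂ : Bool × Bool) (hk : k ≠ (true, true)) :
    (univ.filter fun i : Fin ℓ => ¬ ((i : ℕ) + 1 = 10) ∧ diiiSp k₁ k₂ ((i : ℕ) + 1) = k).card =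
      diiiS k k₁ k₂ := by
  rw [Finset.card_filter]
  rw [Fin.sum_univ_eq_sum_range
    (fun i => if ¬ (i + 1 = 10) ∧ diiiSp k₁ k₂ (i + 1) = k then 1 else 0) ℓ]
  have h1 : ∀ i, 12 ≤ i → (if ¬ (i + 1 = 10) ∧ diiiSp k₁ k₂ (i + 1) = k then 1 else 0) = 0 := by
    intro i hi
    refine if_neg fun h => hk ?_
    rw [← h.2]
    unfold diiiSp
    rw [if_neg (by omega), if_neg (by omega), if_neg (by omega), if_neg (by omega)]
  have h2 : ∑ i ∈ range ℓ, (if ¬ (i + 1 = 10) ∧ diiiSp k₁ k₂ (i + 1) = k then 1 else 0) =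
      ∑ i ∈ range 12, (if ¬ (i + 1 = 10) ∧ diiiSp k₁ k₂ (i + 1) = k then 1 else 0) := by
    symm
    refine Finset.sum_subset (Finset.range_subset_range.2 (by omega)) fun i _ hi => ?_
    refine h1 i ?_
    simpa using hi
  rw [h2]
  have hk' : ¬ ((true, true) = k) := fun h => hk h.symm
  simp only [Finset.sum_range_succ, Finset.sum_range_zero]
  simp [diiiSp, diiiS, hk']

/-- The data of the embedding theorem from the windows and the host. -/
theorem diii_core (h3 : StWK) {n ℓ m : ℕ} (T : PTree n) (x : Fin m → ℕ → Fin n) (hℓ : 20 ≤ ℓ)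
    (hW : ∀ j, Win T ℓ (x j))
    (hx : ∀ j j' i i', 1 ≤ i → i ≤ ℓ → 1 ≤ i' → i' ≤ ℓ → x j i = x j' i' → j = j' ∧ i = i')
    {V : Type} [Fintype V] (hV : Fintype.card V = n) (v0 : V) (D : V → V → Prop)
    (W' : Bool × Bool → Finset V) (hdisj : ∀ k l, k ≠ l → Disjoint (W' k) (W' l))
    (C Li Lo : Finset V) (k₁ k₂ : V → Bool × Bool) (lv : V → V)
    (hall : ∀ v, Exc W' v → v ∈ C) (hLL : Disjoint Li Lo) (ρ : ℝ)
    (hin : ∀ v ∈ C, v ∉ Li → Opt D W' ρ false (k₁ v) v)
    (hout : ∀ v ∈ C, v ∉ Lo → Opt D W' ρ true (k₂ v) v)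
    (hLi : ∀ v ∈ Li, lv v ∈ W' (k₁ v) ∧ D (lv v) v)
    (hLo : ∀ v ∈ Lo, lv v ∈ W' (k₂ v) ∧ D v (lv v))
    (hlC : ∀ v ∈ Li ∪ Lo, lv v ∉ C) (hlinj : Set.InjOn lv (Li ∪ Lo))
    (J : Finset (Fin m)) (hst : Fin m → V) (hinj : Set.InjOn hst J) (himg : J.image hst = C)
    (β : Fin m → ℕ → Bool) (hβ0 : ∀ j, β j 0 = true) (hβℓ : ∀ j, β j ℓ = true)
    (hcount : ∀ k, k ≠ (true, true) →
      ∑ j ∈ Jᶜ, (univ.filter fun i : Fin ℓ => (β j i, β j ((i : ℕ) + 1)) = k).card +
        ∑ v ∈ C, diiiS k (k₁ v) (k₂ v) = (W' k \ C).card) :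
    ∃ (Sp : Finset (Fin n)) (ψ : Fin n → V) (κ : Fin n → Bool × Bool) (Lf : Finset (Fin n))
      (lam : Fin n → V), Sp.card = C.card ∧
      MetData D T W' (fun k l => k.2 = l.1) ρ Sp ψ κ Lf lam := by
  obtain ⟨fill, hfill⟩ : ∃ fill : Fin m → ℕ → Bool × Bool, ∀ j i,
      fill j i = if j ∈ J then diiiSp (k₁ (hst j)) (k₂ (hst j)) i else (β j (i - 1), β j i) :=
    ⟨_, fun _ _ => rfl⟩
  have hsp : ∀ (a b : Bool × Bool) (i : ℕ), i ≠ 8 → i ≠ 9 → i ≠ 11 → i ≠ 12 →
      diiiSp a b i = (true, true) := by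
    intro a b i h8 h9 h11 h12
    unfold diiiSp
    rw [if_neg h8, if_neg h9, if_neg h11, if_neg h12]
  obtain ⟨κ, hκ, hsep, hrob, hcnt⟩ := h3 n ℓ m 10 T x fill J (by norm_num) (by omega) hW hx
    (by
      intro j
      rw [hfill]
      by_cases hj : j ∈ J
      · rw [if_pos hj, hsp _ _ 1 (by norm_num) (by norm_num) (by norm_num) (by norm_num)]
      · rw [if_neg hj]
        exact hβ0 j)
    (by
      intro j
      rw [hfill]
      by_cases hj : j ∈ J
      · rw [if_pos hj, hsp _ _ ℓ (by omega) (by omega) (by omega) (by omega)]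
      · rw [if_neg hj]
        exact hβℓ j)
    (by
      intro j i h1 h2 hne
      rw [hfill, hfill]
      by_cases hj : j ∈ J
      · rw [if_pos hj, if_pos hj]
        have hi10 : i ≠ 10 := fun h => hne ⟨hj, Or.inl h⟩
        have hi9 : i ≠ 9 := fun h => hne ⟨hj, Or.inr (by omega)⟩
        by_cases h7 : i = 7
        · subst h7; simp [diiiSp]
        by_cases h8 : i = 8
        · subst h8; simp [diiiSp]
        by_cases h11 : i = 11
        · subst h11; simp [diiiSp]
        by_cases h12 : i = 12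
        · subst h12; simp [diiiSp]
        rw [hsp _ _ i h8 hi9 h11 h12, hsp _ _ (i + 1) (by omega) (by omega) (by omega) (by omega)]
      · rw [if_neg hj, if_neg hj, Nat.add_sub_cancel])
  -- the images
  obtain ⟨ψ, hψ⟩ : ∃ ψ : Fin n → V, ∀ j i, 1 ≤ i → i ≤ ℓ → ψ (x j i) = hst j := by
    refine ⟨fun y => if h : ∃ j i, 1 ≤ i ∧ i ≤ ℓ ∧ x j i = y then hst h.choose else v0, ?_⟩
    intro j i h1 h2
    have h : ∃ j' i', 1 ≤ i' ∧ i' ≤ ℓ ∧ x j' i' = x j i := ⟨j, i, h1, h2, rfl⟩
    simp only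
    rw [dif_pos h]
    obtain ⟨i', h1', h2', h3'⟩ := h.choose_spec
    rw [(hx _ _ _ _ h1' h2' h1 h2 h3').1]
  have hψ9 : ∀ j, ψ (x j 9) = hst j := fun j => hψ j 9 (by norm_num) (by omega)
  have hψ10 : ∀ j, ψ (x j 10) = hst j := fun j => hψ j 10 (by norm_num) (by omega)
  have hψ11 : ∀ j, ψ (x j 11) = hst j := fun j => hψ j 11 (by norm_num) (by omega)
  have hJC : ∀ j ∈ J, hst j ∈ C := fun j hj => by
    rw [← himg]
    exact Finset.mem_image_of_mem _ hj
  have hx10 : ∀ j j', x j 10 = x j' 10 → j = j' := fun j j' h =>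
    (hx j j' 10 10 (by norm_num) (by omega) (by norm_num) (by omega) h).1
  have hSpimg : (J.image fun j => x j 10).image ψ = C := by
    rw [Finset.image_image, ← himg]
    refine Finset.image_congr fun j _ => ?_
    exact hψ10 j
  have hSpcard : (J.image fun j => x j 10).card = C.card := by
    rw [Finset.card_image_of_injective _ (fun j j' h => hx10 j j' h), ← himg,
      Finset.card_image_of_injOn hinj]
  -- the counts
  have hcnt' : ∀ k, k ≠ (true, true) →
      (univ.filter fun v => v ∉ (J.image fun j => x j 10) ∧ κ v = k).card = (W' k \ C).card := by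
    intro k hk
    have h := hcnt k
    rw [if_neg hk, if_neg hk, add_zero, zero_add] at h
    rw [h, ← hcount k hk]
    rw [diii_card_prod (fun (j : Fin m) (i : Fin ℓ) =>
      ¬ (j ∈ J ∧ (i : ℕ) + 1 = 10) ∧ fill j ((i : ℕ) + 1) = k)]
    rw [← Finset.sum_add_sum_compl J, add_comm]
    congr 1
    · refine Finset.sum_congr rfl fun j hj => ?_
      have hj' : j ∉ J := Finset.mem_compl.1 hj
      refine congrArg Finset.card ?_
      ext i
      simp only [Finset.mem_filter, Finset.mem_univ, true_and]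
      rw [hfill, if_neg hj', Nat.add_sub_cancel]
      simp [hj']
    · rw [← himg, Finset.sum_image hinj]
      refine Finset.sum_congr rfl fun j hj => ?_
      rw [← diii_count_sp ℓ hℓ k (k₁ (hst j)) (k₂ (hst j)) hk]
      refine congrArg Finset.card ?_
      ext i
      simp only [Finset.mem_filter, Finset.mem_univ, true_and]
      rw [hfill, if_pos hj]
      simp [hj]
  have htot1 : ∑ k, (univ.filter fun v => v ∉ (J.image fun j => x j 10) ∧ κ v = k).card =
      n - C.card := by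
    have h1 : (univ.filter fun v => v ∉ (J.image fun j => x j 10)).card = n - C.card := by
      rw [← hSpcard, Finset.filter_not, Finset.filter_mem_eq_inter, Finset.univ_inter,
        ← Finset.compl_eq_univ_sdiff, Finset.card_compl, Fintype.card_fin]
    rw [← h1, Finset.card_eq_sum_card_fiberwise (f := κ) (t := univ) (fun v _ => Finset.mem_univ _)]
    refine Finset.sum_congr rfl fun k _ => ?_
    rw [Finset.filter_filter]
  have htot2 : ∑ k, (W' k \ C).card = n - C.card := by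
    rw [diii_tot W' hdisj C hall, hV]
  have hcount' : ∀ k,
      (univ.filter fun v => v ∉ (J.image fun j => x j 10) ∧ κ v = k).card = (W' k \ C).card := by
    intro k
    by_cases hk : k = (true, true)
    · subst hk
      have e1 := Finset.add_sum_erase univ
        (fun k => (univ.filter fun v => v ∉ (J.image fun j => x j 10) ∧ κ v = k).card)
        (Finset.mem_univ (true, true))
      have e2 := Finset.add_sum_erase univ (fun k => (W' k \ C).card)
        (Finset.mem_univ (true, true))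
      have e3 : ∑ k ∈ univ.erase (true, true),
          (univ.filter fun v => v ∉ (J.image fun j => x j 10) ∧ κ v = k).card =
          ∑ k ∈ univ.erase (true, true), (W' k \ C).card :=
        Finset.sum_congr rfl fun k hk => hcnt' k (Finset.ne_of_mem_erase hk)
      rw [htot1] at e1
      rw [htot2] at e2
      omega
    · exact hcnt' k hk
  -- the reserved leaves
  obtain ⟨Lf, hLf⟩ : ∃ Lf : Finset (Fin n), ∀ y, y ∈ Lf ↔
      ∃ j ∈ J, (hst j ∈ Li ∧ y = x j 9) ∨ (hst j ∈ Lo ∧ y = x j 11) :=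
    ⟨univ.filter fun y => ∃ j ∈ J, (hst j ∈ Li ∧ y = x j 9) ∨ (hst j ∈ Lo ∧ y = x j 11),
      fun y => by simp⟩
  have hf9 : ∀ j ∈ J, κ (x j 9) = k₁ (hst j) := by
    intro j hj
    rw [hκ j 9 (by norm_num) (by omega), hfill, if_pos hj]
    simp [diiiSp]
  have hf11 : ∀ j ∈ J, κ (x j 11) = k₂ (hst j) := by
    intro j hj
    rw [hκ j 11 (by norm_num) (by omega), hfill, if_pos hj]
    simp [diiiSp]
  have harcO : ∀ j, ∀ y, T.Arc (x j 10) y ↔ y = x j 11 := fun j y =>
    (hW j).out 10 (by norm_num) (by omega) y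
  have harcI : ∀ j, ∀ y, T.Arc y (x j 10) ↔ y = x j 9 := fun j y =>
    (hW j).inn 10 (by norm_num) (by omega) y
  have hne : ∀ j j' i i', 1 ≤ i → i ≤ 20 → 1 ≤ i' → i' ≤ 20 → i ≠ i' → x j i ≠ x j' i' := by
    intro j j' i i' h1 h2 h1' h2' hii h
    exact hii (hx j j' i i' h1 (by omega) h1' (by omega) h).2
  have hmem9 : ∀ j ∈ J, (x j 9 ∈ Lf ↔ hst j ∈ Li) := by
    intro j hj
    rw [hLf]
    constructor
    · rintro ⟨j', hj', h | h⟩
      · have := (hx j j' 9 9 (by norm_num) (by omega) (by norm_num) (by omega) h.2).1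
        rw [this]
        exact h.1
      · exact absurd h.2 (hne j j' 9 11 (by norm_num) (by norm_num) (by norm_num) (by norm_num)
          (by norm_num))
    · intro h
      exact ⟨j, hj, Or.inl ⟨h, rfl⟩⟩
  have hmem11 : ∀ j ∈ J, (x j 11 ∈ Lf ↔ hst j ∈ Lo) := by
    intro j hj
    rw [hLf]
    constructor
    · rintro ⟨j', hj', h | h⟩
      · exact absurd h.2 (hne j j' 11 9 (by norm_num) (by norm_num) (by norm_num) (by norm_num)
          (by norm_num))
      · have := (hx j j' 11 11 (by norm_num) (by omega) (by norm_num) (by omega) h.2).1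
        rw [this]
        exact h.1
    · intro h
      exact ⟨j, hj, Or.inr ⟨h, rfl⟩⟩
  refine ⟨J.image fun j => x j 10, ψ, κ, Lf, fun y => lv (ψ y), hSpcard, ?_⟩
  refine ⟨hsep, ?_, ?_, hrob, ?_, ?_, ?_, ?_, ?_, ?_, ?_⟩
  · -- inj
    intro a ha b hb hab
    simp only [Finset.coe_image, Set.mem_image, Finset.mem_coe] at ha hb
    obtain ⟨j, hj, rfl⟩ := ha
    obtain ⟨j', hj', rfl⟩ := hb
    rw [hψ10, hψ10] at hab
    rw [hinj hj hj' hab]
  · -- all
    intro v hv
    rw [hSpimg]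
    exact hall v hv
  · -- linj
    intro a ha b hb hab
    rw [Finset.mem_coe, hLf] at ha hb
    simp only at hab
    obtain ⟨j, hj, ha⟩ := ha
    obtain ⟨j', hj', hb⟩ := hb
    rcases ha with ⟨ha, rfl⟩ | ⟨ha, rfl⟩ <;> rcases hb with ⟨hb, rfl⟩ | ⟨hb, rfl⟩
    · rw [hψ9, hψ9] at hab
      rw [hinj hj hj' (hlinj (by simp [ha]) (by simp [hb]) hab)]
    · rw [hψ9, hψ11] at hab
      have := hlinj (by simp [ha]) (by simp [hb]) hab
      rw [this] at ha
      exact absurd hb (Finset.disjoint_left.1 hLL ha)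
    · rw [hψ11, hψ9] at hab
      have := hlinj (by simp [ha]) (by simp [hb]) hab
      rw [this] at ha
      exact absurd ha (Finset.disjoint_left.1 hLL hb)
    · rw [hψ11, hψ11] at hab
      rw [hinj hj hj' (hlinj (by simp [ha]) (by simp [hb]) hab)]
  · -- leaf
    intro y hy
    rw [hLf] at hy
    obtain ⟨j, hj, hy⟩ := hy
    rcases hy with ⟨hv, rfl⟩ | ⟨hv, rfl⟩
    · refine ⟨?_, ?_, ?_⟩
      · intro h
        obtain ⟨j', -, h'⟩ := Finset.mem_image.1 h
        exact hne j' j 10 9 (by norm_num) (by norm_num) (by norm_num) (by norm_num)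
          (by norm_num) h'
      · rw [hψ9, hf9 j hj]
        exact (hLi _ hv).1
      · rw [hSpimg, hψ9]
        exact hlC _ (Finset.mem_union_left _ hv)
    · refine ⟨?_, ?_, ?_⟩
      · intro h
        obtain ⟨j', -, h'⟩ := Finset.mem_image.1 h
        exact hne j' j 10 11 (by norm_num) (by norm_num) (by norm_num) (by norm_num)
          (by norm_num) h'
      · rw [hψ11, hf11 j hj]
        exact (hLo _ hv).1
      · rw [hSpimg, hψ11]
        exact hlC _ (Finset.mem_union_right _ hv)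
  · -- outL
    intro a ha y hy hay
    obtain ⟨j, hj, rfl⟩ := Finset.mem_image.1 ha
    rw [harcO] at hay
    subst hay
    rw [hψ10, hψ11]
    exact (hLo _ ((hmem11 j hj).1 hy)).2
  · -- inL
    intro a ha y hy hay
    obtain ⟨j, hj, rfl⟩ := Finset.mem_image.1 ha
    rw [harcI] at hay
    subst hay
    rw [hψ10, hψ9]
    exact (hLi _ ((hmem9 j hj).1 hy)).2
  · -- outF
    intro a ha y hy hay
    obtain ⟨j, hj, rfl⟩ := Finset.mem_image.1 ha
    rw [harcO] at hay
    subst hay
    rw [hψ10, hf11 j hj, ← hV]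
    exact hout _ (hJC j hj) fun h => hy ((hmem11 j hj).2 h)
  · -- inF
    intro a ha y hy hay
    obtain ⟨j, hj, rfl⟩ := Finset.mem_image.1 ha
    rw [harcI] at hay
    subst hay
    rw [hψ10, hf9 j hj, ← hV]
    exact hin _ (hJC j hj) fun h => hy ((hmem9 j hj).2 h)
  · -- count
    intro k
    rw [hSpimg]
    convert hcount' k

theorem diii_sum4 (f : Bool × Bool → ℕ) :
    ∑ k, f k = f (true, true) + f (true, false) + (f (false, true) + f (false, false)) := by
  rw [Fintype.sum_prod_type]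
  simp

/-- Trees with few sinks and few sources in the third regime. -/
theorem x3_diii (h1 : StDev) (h2 : StWin) (h3 : StWK) (h4 : StPack) (h5 : StMet) : StDIII := by
  intro Δ γ hγ
  obtain ⟨δ₀, L₀, hδ₀, hdev⟩ := h1 (1 / 100) (by norm_num) (by norm_num)
  obtain ⟨η, θ, N₁, hη, hθ, hmet⟩ := h5 Δ (γ / 4) (1 / 200) (by positivity) (by norm_num)
    (Bool × Bool)
  obtain ⟨ℓ, hℓ⟩ : ∃ ℓ : ℕ, ℓ = ⌈100 / γ⌉₊ + 20 := ⟨_, rfl⟩
  have hℓ20 : 20 ≤ ℓ := by omega
  have hℓR : (20 : ℝ) ≤ (ℓ : ℝ) := by exact_mod_cast hℓ20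
  have hℓ0 : (0 : ℝ) < (ℓ : ℝ) := by linarith
  have hℓγ : 100 ≤ γ * (ℓ : ℝ) := by
    have h : 100 / γ ≤ (ℓ : ℝ) := by
      rw [hℓ]
      push_cast
      have := Nat.le_ceil (100 / γ)
      linarith
    rw [div_le_iff₀ hγ] at h
    linarith
  obtain ⟨δ, hδ⟩ : ∃ δ : ℝ, δ = min δ₀ (min (η / 10) (min (θ / 50) (γ / (5000 * ℓ)))) := ⟨_, rfl⟩
  have hδpos : 0 < δ := by
    rw [hδ]
    refine lt_min hδ₀ (lt_min (by positivity) (lt_min (by positivity) (by positivity)))
  have hδ0 : δ ≤ δ₀ := by rw [hδ]; exact min_le_left _ _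
  have hδη : δ ≤ η / 10 := by rw [hδ]; exact (min_le_right _ _).trans (min_le_left _ _)
  have hδθ : δ ≤ θ / 50 := by
    rw [hδ]; exact ((min_le_right _ _).trans (min_le_right _ _)).trans (min_le_left _ _)
  have hδγ : δ ≤ γ / (5000 * ℓ) := by
    rw [hδ]; exact ((min_le_right _ _).trans (min_le_right _ _)).trans (min_le_right _ _)
  have hδℓ : 5000 * (δ * (ℓ : ℝ)) ≤ γ := by
    rw [le_div_iff₀ (by positivity)] at hδγ
    linarith
  obtain ⟨c, hc⟩ : ∃ c : ℝ, c = |L₀| + 1 := ⟨_, rfl⟩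
  have hc0 : 0 < c := by rw [hc]; positivity
  have hcL : L₀ ≤ c := by rw [hc]; linarith [le_abs_self L₀]
  refine ⟨γ / (100 * ℓ), δ, c, N₁ + 3 + ⌈c / δ⌉₊ + ⌈100 * ℓ / γ⌉₊, by positivity, hδpos, ?_⟩
  intro n hn V _ hV D W hTyp hWγ hSD T hT hSnk hSrc
  have hnN : N₁ ≤ n := by omega
  have hn3 : 3 ≤ n := by omega
  have hnR3 : (3 : ℝ) ≤ (n : ℝ) := by exact_mod_cast hn3
  have hn0 : (0 : ℝ) < (n : ℝ) := by linarith
  have hcδ : c ≤ δ * (n : ℝ) := by
    have h : c / δ ≤ (n : ℝ) := by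
      have h' := Nat.le_ceil (c / δ)
      have h'' : ((⌈c / δ⌉₊ : ℕ) : ℝ) ≤ (n : ℝ) := by exact_mod_cast (by omega)
      linarith
    rw [div_le_iff₀ hδpos] at h
    linarith
  have hℓn : 100 * (ℓ : ℝ) ≤ γ * (n : ℝ) := by
    have h : 100 * (ℓ : ℝ) / γ ≤ (n : ℝ) := by
      have h' := Nat.le_ceil (100 * (ℓ : ℝ) / γ)
      have h'' : ((⌈100 * (ℓ : ℝ) / γ⌉₊ : ℕ) : ℝ) ≤ (n : ℝ) := Nat.cast_le.2 (by omega)
      linarith
    rw [div_le_iff₀ hγ] at h
    linarith
  have hlog : 1 ≤ Real.log n := by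
    rw [Real.le_log_iff_exp_le hn0]
    have := Real.exp_one_lt_d9
    linarith
  have hSDc : SemiDeg D c := by
    refine ⟨hSD.irr, fun s u => le_trans ?_ (hSD.deg s u)⟩
    have : c * 1 ≤ c * Real.log n := mul_le_mul_of_nonneg_left hlog hc0.le
    linarith
  obtain ⟨W', hW'sub, hTyp', C, Li, Lo, k₁, k₂, lv, hExc, hCcard, hLiC, hLoC, hLL, hin, hout, hLi,
    hLo, hlC, hlinj, heq⟩ := hdev V D W δ c hTyp hδ0 hSDc hcL (by rw [hV]; exact hcδ)
  obtain ⟨m, x, hWin, hx, hm⟩ := h2 ℓ n T (by omega)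
  rw [hV] at hCcard
  -- real sizes
  have hCR : ((C.card : ℕ) : ℝ) * (ℓ : ℝ) ≤ γ * n / 100 := by
    have h : ((C.card : ℕ) : ℝ) * (ℓ : ℝ) ≤ 50 * δ * n * ℓ := by gcongr
    have h' : 5000 * (δ * (ℓ : ℝ)) * n ≤ γ * n := by gcongr
    linarith
  have hCR2 : 20 * ((C.card : ℕ) : ℝ) ≤ γ * n / 100 := by
    have : 20 * ((C.card : ℕ) : ℝ) ≤ ((C.card : ℕ) : ℝ) * (ℓ : ℝ) := by
      have := mul_le_mul_of_nonneg_left hℓR (Nat.cast_nonneg (α := ℝ) C.card)
      linarith
    linarith
  have hδ20 : 20 * δ ≤ γ / 100 := by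
    have : δ * 20 ≤ δ * (ℓ : ℝ) := by gcongr
    linarith
  have hmn : m * ℓ ≤ n := by
    have hinj : Function.Injective fun q : Fin m × Fin ℓ => x q.1 ((q.2 : ℕ) + 1) := by
      intro q q' h
      have h' := hx q.1 q'.1 ((q.2 : ℕ) + 1) ((q'.2 : ℕ) + 1) (by omega) (by omega) (by omega)
        (by omega) h
      exact Prod.ext h'.1 (Fin.ext (by omega))
    have := Fintype.card_le_of_injective _ hinj
    simpa using this
  have hmnR : (m : ℝ) * (ℓ : ℝ) ≤ n := by exact_mod_cast hmn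
  have hm100 : 100 * (m : ℝ) ≤ γ * n := by
    have h : (m : ℝ) * 100 ≤ (m : ℝ) * (γ * ℓ) := by gcongr
    have h' : γ * ((m : ℝ) * (ℓ : ℝ)) ≤ γ * n := by gcongr
    linarith
  have hmR : (n : ℝ) ≤ m * ℓ + γ * n / 25 + γ * n / 100 := by
    have h : (n : ℝ) ≤ m * ℓ + 2 * ℓ * (((univ.filter fun v => T.Snk v).card : ℕ) +
        ((univ.filter fun v => T.Src v).card : ℕ)) + ℓ := by exact_mod_cast hm
    have e : γ / (100 * (ℓ : ℝ)) * n * (ℓ * 4) = γ * n / 25 := by
      field_simp
      norm_num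
    have h1 : (((univ.filter fun v => T.Snk v).card : ℕ) : ℝ) * (2 * ℓ) ≤
        γ / (100 * (ℓ : ℝ)) * n * (2 * ℓ) := by gcongr
    have h2 : (((univ.filter fun v => T.Src v).card : ℕ) : ℝ) * (2 * ℓ) ≤
        γ / (100 * (ℓ : ℝ)) * n * (2 * ℓ) := by gcongr
    linarith
  -- sizes of the classes
  have hsumW : ((W (true, true)).card : ℝ) + (W (true, false)).card +
      ((W (false, true)).card + (W (false, false)).card) ≤ n := by
    have h : ∑ k, (W k).card ≤ n := by
      rw [← Finset.card_biUnion fun k _ l _ hkl => hTyp.disj k l hkl, ← hV]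
      exact Finset.card_le_univ _
    rw [diii_sum4] at h
    exact_mod_cast h
  have hB1 := hTyp'.inB true
  have hB2 := hTyp'.inB false
  rw [hV] at hB1 hB2
  have hle : ∀ k, ((W' k).card : ℝ) ≤ ((W k).card : ℝ) := fun k => by
    exact_mod_cast Finset.card_le_card (hW'sub k)
  have hW'γ : ∀ k, γ * n / 2 ≤ ((W' k).card : ℝ) := by
    have a1 := hle (true, true)
    have a2 := hle (true, false)
    have a3 := hle (false, true)
    have a4 := hle (false, false)
    have g1 := hWγ (true, true)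
    have g2 := hWγ (true, false)
    have g3 := hWγ (false, true)
    have g4 := hWγ (false, false)
    have hd : 20 * δ * n ≤ γ / 100 * n := by gcongr
    have hγn : 0 < γ * n := by positivity
    rintro ⟨b, b'⟩
    cases b <;> cases b' <;> linarith
  have hγ4 : 4 * (γ * n) ≤ n := by
    have g1 := hWγ (true, true)
    have g2 := hWγ (true, false)
    have g3 := hWγ (false, true)
    have g4 := hWγ (false, false)
    linarith
  have hγn : 0 < γ * n := by positivity
  -- natural numbers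
  have hA : ∀ k, m + 5 * C.card ≤ (W' k).card := by
    intro k
    have h := hW'γ k
    have : (m : ℝ) + 5 * (C.card : ℕ) ≤ ((W' k).card : ℕ) := by linarith
    exact_mod_cast this
  have hCm : C.card ≤ m := by
    have h : ((C.card : ℕ) : ℝ) * (ℓ : ℝ) ≤ (m : ℝ) * (ℓ : ℝ) := by linarith
    have h' := le_of_mul_le_mul_right h hℓ0
    exact_mod_cast h'
  have hE : n + 4 * m + C.card * ℓ ≤ m * ℓ + (W' (true, true)).card := by
    have h := hW'γ (true, true)
    have : (n : ℝ) + 4 * m + (C.card : ℕ) * ℓ ≤ m * ℓ + ((W' (true, true)).card : ℕ) := by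
      linarith
    exact_mod_cast this
  have hBk : ∀ k, (W' k).card ≤ (W' k \ C).card + C.card := fun k => by
    exact Finset.card_le_card_sdiff_add_card
  have htot : ∑ k, (W' k \ C).card = n - C.card := by
    rw [diii_tot W' hTyp'.disj C hExc, hV]
  rw [diii_sum4] at htot
  have hCn : C.card ≤ n := by rw [← hV]; exact Finset.card_le_univ _
  obtain ⟨S, hS⟩ : ∃ S : Bool × Bool → ℕ, ∀ k, S k = ∑ v ∈ C, diiiS k (k₁ v) (k₂ v) :=
    ⟨_, fun _ => rfl⟩
  have hS4 : ∀ k, S k ≤ 4 * C.card := by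
    intro k
    rw [hS]
    calc ∑ v ∈ C, diiiS k (k₁ v) (k₂ v) ≤ ∑ _v ∈ C, 4 :=
          Finset.sum_le_sum fun v _ => diiiS_le _ _ _
      _ = 4 * C.card := by rw [Finset.sum_const, smul_eq_mul, mul_comm]
  have hbal : S (true, false) + (C.filter fun v => (k₁ v).2 = true ∧ (k₂ v).1 = false).card =
      S (false, true) + (C.filter fun v => (k₁ v).2 = false ∧ (k₂ v).1 = true).card := by
    rw [hS, hS, Finset.card_filter, Finset.card_filter, ← Finset.sum_add_distrib,
      ← Finset.sum_add_distrib]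
    refine Finset.sum_congr rfl fun v _ => ?_
    convert diiiS_bal (k₁ v) (k₂ v)
  obtain ⟨w, hw⟩ : ∃ w, w = m - C.card := ⟨_, rfl⟩
  obtain ⟨a, ha⟩ : ∃ a, a = (W' (false, true) \ C).card - S (false, true) := ⟨_, rfl⟩
  obtain ⟨cc, hcc⟩ : ∃ cc, cc = (W' (false, false) \ C).card - S (false, false) := ⟨_, rfl⟩
  have f1 := hA (false, true)
  have f2 := hA (true, false)
  have f3 := hA (false, false)
  have f4 := hBk (false, true)
  have f5 := hBk (true, false)
  have f6 := hBk (false, false)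
  have f7 := hBk (true, true)
  have f8 := hS4 (false, true)
  have f9 := hS4 (true, false)
  have f10 := hS4 (false, false)
  have ea1 : a + S (false, true) = (W' (false, true) \ C).card := by omega
  have ea2 : a + S (true, false) = (W' (true, false) \ C).card := by omega
  have ec : cc + S (false, false) = (W' (false, false) \ C).card := by omega
  have hwℓ : w * ℓ = m * ℓ - C.card * ℓ := by rw [hw, Nat.sub_mul]
  obtain ⟨β, hβ0, hβℓ, hβ1, hβ2, hβ3⟩ := h4 ℓ w a cc (by omega) (by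
    rw [hwℓ]
    omega)
  -- the special windows
  obtain ⟨J, -, hJ⟩ := Finset.exists_subset_card_eq (s := (univ : Finset (Fin m)))
    (n := C.card) (by simpa using hCm)
  have hJc : Jᶜ.card = w := by
    rw [Finset.card_compl, Fintype.card_fin, hJ, hw]
  let eJ : J ≃ C := Finset.equivOfCardEq hJ
  let eC : (Jᶜ : Finset (Fin m)) ≃ Fin w := Finset.equivFinOfCardEq hJc
  have hVne : Nonempty V := by
    rw [← Fintype.card_pos_iff, hV]
    omega
  obtain ⟨v0⟩ := hVne
  obtain ⟨hst, hhst⟩ : ∃ hst : Fin m → V, ∀ (j : Fin m) (h : j ∈ J), hst j = (eJ ⟨j, h⟩ : V) :=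
    ⟨fun j => if h : j ∈ J then (eJ ⟨j, h⟩ : V) else v0, fun j h => dif_pos h⟩
  obtain ⟨β', hβ'⟩ : ∃ β' : Fin m → ℕ → Bool, (∀ (j : Fin m) (h : j ∈ Jᶜ), β' j = β (eC ⟨j, h⟩)) ∧
      ∀ j, j ∉ Jᶜ → β' j = fun _ => true :=
    ⟨fun j => if h : j ∈ Jᶜ then β (eC ⟨j, h⟩) else fun _ => true, fun j h => dif_pos h,
      fun j h => dif_neg h⟩
  have hinj : Set.InjOn hst J := by
    intro j hj j' hj' h
    rw [hhst j hj, hhst j' hj'] at h
    have := eJ.injective (Subtype.ext h)
    exact congrArg Subtype.val this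
  have himg : J.image hst = C := by
    ext v
    rw [Finset.mem_image]
    constructor
    · rintro ⟨j, hj, rfl⟩
      rw [hhst j hj]
      exact (eJ ⟨j, hj⟩).2
    · intro hv
      refine ⟨(eJ.symm ⟨v, hv⟩ : Fin m), (eJ.symm ⟨v, hv⟩).2, ?_⟩
      rw [hhst _ (eJ.symm ⟨v, hv⟩).2]
      simp
  have hnorm : ∀ k : Bool × Bool,
      ∑ j ∈ Jᶜ, (univ.filter fun i : Fin ℓ => (β' j i, β' j ((i : ℕ) + 1)) = k).card =
      (univ.filter fun q : Fin w × Fin ℓ => (β q.1 q.2, β q.1 ((q.2 : ℕ) + 1)) = k).card := by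
    intro k
    rw [diii_card_prod (fun (j : Fin w) (i : Fin ℓ) => (β j i, β j ((i : ℕ) + 1)) = k)]
    rw [← Finset.sum_coe_sort, ← Equiv.sum_comp eC]
    refine Finset.sum_congr rfl fun j _ => ?_
    rw [hβ'.1 j j.2]
    convert rfl
  obtain ⟨Sp, ψ, κ, Lf, lam, hSpc, hdata⟩ := diii_core h3 T x hℓ20 hWin hx hV v0 D W' hTyp'.disj C
    Li Lo k₁ k₂ lv hExc hLL (1 / 200)
    (fun v hv hv' => by
      have := hin v hv hv'
      convert this using 1
      norm_num)
    (fun v hv hv' => by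
      have := hout v hv hv'
      convert this using 1
      norm_num)
    hLi hLo hlC hlinj J hst hinj himg β'
    (by
      intro j
      by_cases h : j ∈ Jᶜ
      · rw [hβ'.1 j h]; exact hβ0 _
      · rw [hβ'.2 j h])
    (by
      intro j
      by_cases h : j ∈ Jᶜ
      · rw [hβ'.1 j h]; exact hβℓ _
      · rw [hβ'.2 j h])
    (by
      rintro ⟨b, b'⟩ hk
      rw [← hS]
      have h := hnorm (b, b')
      cases b <;> cases b'
      · rw [← ec, ← hβ3]
        congr 1
        convert h using 4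
        simp
      · rw [← ea1, ← hβ1]
        congr 1
        convert h using 4
        simp
      · rw [← ea2, ← hβ2]
        congr 1
        convert h using 4
        simp
      · exact absurd rfl hk)
  refine hmet n hnN T hT V hV D W' hTyp'.disj ?_ (fun k l => k.2 = l.1) ?_ ?_ Sp ψ κ Lf lam ?_
    hdata
  · intro k
    have := hW'γ k
    linarith
  · intro k l hkl v hv
    have h := hTyp'.out k l hkl v hv
    rw [hV] at h
    refine h.trans ?_
    have : 10 * δ ≤ η := by linarith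
    gcongr
  · intro k l hkl v hv
    have h := hTyp'.inn k l hkl v hv
    rw [hV] at h
    refine h.trans ?_
    have : 10 * δ ≤ η := by linarith
    gcongr
  · rw [hSpc]
    have : 50 * δ ≤ θ := by linarith
    have h' : 50 * δ * (n : ℝ) ≤ θ * n := by gcongr
    linarith

end

end OT
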